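import Pool.Agent.L7h57.RV.Stm2

/-! [NB3] of project RV (helper57): the norm of the bracket in dimension three. -/

set_option autoImplicit false

namespace Pool.Agent.L7h47.RV

open MvPolynomial Pool.Helper89.Rev Pool.Agent.L7h57.RV

theorem nr3_of_sub {p : MvPolynomial (Fin 3) ℂ} {S : Finset (Fin 3 →₀ ℕ)} (h : p.support ⊆ S) :
    nr3 p = ∑ m ∈ S, ‖coeff m p‖ := by
  unfold nr3
  refine Finset.sum_subset h fun m _ hm => ?_
  rw [notMem_support_iff.1 hm, norm_zero]

theorem nr3_nonneg (p : MvPolynomial (Fin 3) ℂ) : 0 ≤ nr3 p :=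
  Finset.sum_nonneg fun _ _ => norm_nonneg _

theorem nr3_zero : nr3 (0 : MvPolynomial (Fin 3) ℂ) = 0 := by simp [nr3]

theorem nr3_add (p q : MvPolynomial (Fin 3) ℂ) : nr3 (p + q) ≤ nr3 p + nr3 q := by
  classical
  rw [nr3_of_sub (p := p + q) (S := p.support ∪ q.support) support_add,
    nr3_of_sub (p := p) (S := p.support ∪ q.support) Finset.subset_union_left,
    nr3_of_sub (p := q) (S := p.support ∪ q.support) Finset.subset_union_right,
    ← Finset.sum_add_distrib]
  refine Finset.sum_le_sum fun m _ => ?_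
  rw [coeff_add]
  exact norm_add_le _ _

theorem nr3_neg (p : MvPolynomial (Fin 3) ℂ) : nr3 (-p) = nr3 p := by
  rw [nr3_of_sub (p := -p) (S := p.support) (by rw [support_neg])]
  unfold nr3
  refine Finset.sum_congr rfl fun m _ => ?_
  rw [coeff_neg, norm_neg]

theorem nr3_sub (p q : MvPolynomial (Fin 3) ℂ) : nr3 (p - q) ≤ nr3 p + nr3 q := by
  rw [sub_eq_add_neg]
  have := nr3_add p (-q)
  rwa [nr3_neg] at this

theorem nr3_sum {ι : Type} (S : Finset ι) (f : ι → MvPolynomial (Fin 3) ℂ) :
    nr3 (∑ i ∈ S, f i) ≤ ∑ i ∈ S, nr3 (f i) := by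
  classical
  induction S using Finset.induction_on with
  | empty => simp [nr3_zero]
  | insert a S ha ih =>
    rw [Finset.sum_insert ha, Finset.sum_insert ha]
    exact (nr3_add _ _).trans (by linarith)

theorem nr3_monomial (m : Fin 3 →₀ ℕ) (c : ℂ) : nr3 (monomial m c) = ‖c‖ := by
  classical
  rw [nr3_of_sub (p := monomial m c) (S := {m}) support_monomial_subset, Finset.sum_singleton,
    coeff_monomial, if_pos rfl]

theorem nr3_mul (p q : MvPolynomial (Fin 3) ℂ) : nr3 (p * q) ≤ nr3 p * nr3 q := by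
  have h : p * q = ∑ m ∈ p.support, ∑ k ∈ q.support,
      monomial (m + k) (coeff m p * coeff k q) := by
    conv_lhs => rw [p.as_sum, q.as_sum, Finset.sum_mul_sum]
    simp only [monomial_mul]
  rw [h]
  refine (nr3_sum _ _).trans ?_
  unfold nr3 at *
  rw [Finset.sum_mul]
  refine Finset.sum_le_sum fun m _ => ?_
  rw [Finset.mul_sum]
  refine (nr3_sum q.support fun k => monomial (m + k) (coeff m p * coeff k q)).trans ?_
  refine Finset.sum_le_sum fun k _ => ?_
  rw [nr3_monomial, norm_mul]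

theorem nr3_pderiv {p : MvPolynomial (Fin 3) ℂ} {k : ℕ} (hp : p.IsHomogeneous k) (j : Fin 3) :
    nr3 (pderiv j p) ≤ k * nr3 p := by
  have h : pderiv j p = ∑ m ∈ p.support, monomial (m - Finsupp.single j 1) (coeff m p * m j) := by
    conv_lhs => rw [p.as_sum, map_sum]
    simp only [pderiv_monomial]
  rw [h]
  refine (nr3_sum _ _).trans ?_
  unfold nr3
  rw [Finset.mul_sum]
  refine Finset.sum_le_sum fun m hm => ?_
  have h1 := nr3_monomial (m - Finsupp.single j 1) (coeff m p * m j)
  unfold nr3 at h1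
  rw [h1, norm_mul, Complex.norm_natCast, mul_comm]
  refine mul_le_mul_of_nonneg_right ?_ (norm_nonneg _)
  have h2 := hp (mem_support_iff.1 hm)
  rw [Finsupp.weight_apply, Finsupp.sum_fintype _ _ (by simp)] at h2
  simp only [Pi.one_apply, smul_eq_mul, mul_one] at h2
  have h3 : m j ≤ k := by
    rw [← h2]
    exact Finset.single_le_sum (fun _ _ => Nat.zero_le _) (Finset.mem_univ j)
  exact_mod_cast h3

theorem nrm3_br (d : ℕ) (A D : VF 3) (hA : HomT 2 A) (hD : HomT d D) :
    nrm3 (br A D) ≤ (d + 2) * nrm3 A * nrm3 D := by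
  unfold nrm3
  have h1 : ∀ i : Fin 3, nr3 (br A D i) ≤
      ∑ j : Fin 3, (2 * nr3 (A i) * nr3 (D j) + d * nr3 (D i) * nr3 (A j)) := by
    intro i
    unfold br
    refine (nr3_sum _ _).trans (Finset.sum_le_sum fun j _ => ?_)
    refine (nr3_sub _ _).trans (add_le_add ?_ ?_)
    · refine (nr3_mul _ _).trans ?_
      refine mul_le_mul_of_nonneg_right ?_ (nr3_nonneg _)
      exact_mod_cast nr3_pderiv (hA i) j
    · refine (nr3_mul _ _).trans ?_
      exact mul_le_mul_of_nonneg_right (nr3_pderiv (hD i) j) (nr3_nonneg _)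
  refine (Finset.sum_le_sum fun i _ => h1 i).trans (le_of_eq ?_)
  simp only [Fin.sum_univ_three]
  ring

/-- The coefficients of `p (ε x)`. -/
theorem coeff_aeval_diag (ε : Fin 3 → ℂ) (p : MvPolynomial (Fin 3) ℂ) (m : Fin 3 →₀ ℕ) :
    coeff m (aeval (fun k => C (ε k) * X k : Fin 3 → MvPolynomial (Fin 3) ℂ) p) =
      (∏ k, ε k ^ m k) * coeff m p := by
  classical
  induction p using MvPolynomial.induction_on' with
  | monomial u a =>
    have e : aeval (fun k => C (ε k) * X k : Fin 3 → MvPolynomial (Fin 3) ℂ) (monomial u a) =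
        monomial u ((∏ k, ε k ^ u k) * a) := by
      rw [aeval_monomial, monomial_eq, Finsupp.prod_fintype _ _ (by simp),
        Finsupp.prod_fintype _ _ (by simp), algebraMap_eq]
      simp only [mul_pow, Finset.prod_mul_distrib, C_mul, map_prod, C_pow]
      ring
    rw [e, coeff_monomial, coeff_monomial]
    split_ifs with h
    · rw [h]
    · rw [mul_zero]
  | add p q hp hq => rw [map_add, coeff_add, coeff_add, hp, hq, mul_add]

theorem act_sg (D : VF 3) (i : Fin 3) : act sg sg D i =
    C ((![1, 1, -1] : Fin 3 → ℂ) i) *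
      aeval (fun k => C ((![1, 1, -1] : Fin 3 → ℂ) k) * X k : Fin 3 → MvPolynomial (Fin 3) ℂ)
        (D i) := by
  have hl : lin sg = fun k => C ((![1, 1, -1] : Fin 3 → ℂ) k) * X k := by
    funext k
    unfold lin sg
    rw [Finset.sum_eq_single k]
    · rw [Matrix.diagonal_apply_eq]
    · intro l _ hl
      rw [Matrix.diagonal_apply_ne _ hl.symm, C_0, zero_mul]
    · intro h
      exact absurd (Finset.mem_univ _) h
  unfold act
  rw [hl, Finset.sum_eq_single i]
  · rw [sg, Matrix.diagonal_apply_eq]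
  · intro l _ hl
    rw [sg, Matrix.diagonal_apply_ne _ hl.symm, C_0, zero_mul]
  · intro h
    exact absurd (Finset.mem_univ _) h

theorem norm_eps (k : Fin 3) : ‖(![1, 1, -1] : Fin 3 → ℂ) k‖ = 1 := by
  fin_cases k <;> simp

theorem nr3_act (D : VF 3) (i : Fin 3) : nr3 (act sg sg D i) = nr3 (D i) := by
  classical
  rw [nr3_of_sub (p := act sg sg D i) (S := (act sg sg D i).support ∪ (D i).support)
      Finset.subset_union_left,
    nr3_of_sub (p := D i) (S := (act sg sg D i).support ∪ (D i).support)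
      Finset.subset_union_right]
  refine Finset.sum_congr rfl fun m _ => ?_
  rw [act_sg, coeff_C_mul, coeff_aeval_diag, norm_mul, norm_mul, norm_eps, norm_prod]
  simp only [norm_pow, norm_eps, one_pow, Finset.prod_const_one, one_mul]

/-- Part NB3. -/
theorem s_NB3 : S_NB3 :=
  ⟨nrm3_br, fun D => Finset.sum_congr rfl fun i _ => nr3_act D i⟩

end Pool.Agent.L7h47.RV
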